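import Mathlib

/-!
# The double counting
-/

namespace Pool.Agent.H37TR

variable {V : Type*} [DecidableEq V] {ι : Type*} [Fintype ι] [DecidableEq ι]

lemma sum_deg (A : Finset V) (N : V → Finset ι) :
    ∑ i : ι, (A.filter (fun x => i ∈ N x)).card = ∑ x ∈ A, (N x).card := by
  have h1 : ∀ i : ι, (A.filter (fun x => i ∈ N x)).card = ∑ x ∈ A, if i ∈ N x then 1 else 0 := by
    intro i
    rw [Finset.card_filter]
  simp_rw [h1]
  rw [Finset.sum_comm]
  refine Finset.sum_congr rfl ?_
  intro x _
  rw [← Finset.card_filter]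
  congr 1
  ext i
  simp

lemma sum_deg_sq (A : Finset V) (N : V → Finset ι) :
    ∑ i : ι, (A.filter (fun x => i ∈ N x)).card ^ 2 = ∑ x ∈ A, ∑ y ∈ A, (N x ∩ N y).card := by
  have h1 : ∀ i : ι, (A.filter (fun x => i ∈ N x)).card = ∑ x ∈ A, if i ∈ N x then 1 else 0 := by
    intro i
    rw [Finset.card_filter]
  have h2 : ∀ i : ι, (A.filter (fun x => i ∈ N x)).card ^ 2 =
      ∑ x ∈ A, ∑ y ∈ A, if i ∈ N x ∩ N y then 1 else 0 := by
    intro i
    rw [h1 i, sq, Finset.sum_mul_sum]
    refine Finset.sum_congr rfl fun x _ => Finset.sum_congr rfl fun y _ => ?_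
    by_cases hx : i ∈ N x <;> by_cases hy : i ∈ N y <;> simp [hx, hy]
  simp_rw [h2]
  rw [Finset.sum_comm]
  refine Finset.sum_congr rfl fun x _ => ?_
  rw [Finset.sum_comm]
  refine Finset.sum_congr rfl fun y _ => ?_
  rw [← Finset.card_filter]
  congr 1
  ext i
  simp

/-- If every index has degree at least k, every set has at most k+1 elements and two sets of
size k+1 meet in at least (k+2)/2 elements, then there are at most |S|+1 indices. -/
lemma count_bound (S : Finset V) (N : V → Finset ι) (k : ℕ) (hk : 1 ≤ k)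
    (h1 : ∀ i, k ≤ (S.filter (fun x => i ∈ N x)).card)
    (h2 : ∀ x ∈ S, (N x).card ≤ k + 1)
    (h3 : ∀ x ∈ S, ∀ y ∈ S, x ≠ y → (N x).card = k + 1 → (N y).card = k + 1 →
      k + 2 ≤ 2 * (N x ∩ N y).card) :
    Fintype.card ι ≤ S.card + 1 := by
  by_contra hcon
  push Not at hcon
  set A := S.filter (fun x => (N x).card = k + 1) with hA
  set l := A.card with hl
  set m := Fintype.card ι with hm
  set s := S.card with hs
  have hAS : A ⊆ S := Finset.filter_subset _ _
  -- total degree
  have hsum1 : ∑ i : ι, (S.filter (fun x => i ∈ N x)).card ≤ s * k + l := by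
    rw [sum_deg]
    have : ∀ x ∈ S, (N x).card ≤ k + if (N x).card = k + 1 then 1 else 0 := by
      intro x hx
      have := h2 x hx
      split_ifs <;> omega
    refine (Finset.sum_le_sum this).trans ?_
    rw [Finset.sum_add_distrib, ← Finset.card_filter, Finset.sum_const, smul_eq_mul]
  let e : ι → ℕ := fun i => (S.filter (fun x => i ∈ N x)).card - k
  have he : ∀ i, (S.filter (fun x => i ∈ N x)).card = k + e i := by
    intro i
    have := h1 i
    simp only [e]
    omega
  have hsum2 : m * k + ∑ i, e i ≤ s * k + l := by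
    refine le_trans ?_ hsum1
    simp_rw [he]
    rw [Finset.sum_add_distrib, Finset.sum_const, smul_eq_mul, Finset.card_univ]
  have hE : ∑ i, e i + 2 * k ≤ l := by
    have : (s + 2) * k ≤ m * k := Nat.mul_le_mul_right _ hcon
    nlinarith
  have hd1 : ∑ i : ι, (A.filter (fun x => i ∈ N x)).card = l * (k + 1) := by
    rw [sum_deg]
    have : ∀ x ∈ A, (N x).card = k + 1 := fun x hx => (Finset.mem_filter.mp hx).2
    rw [Finset.sum_congr rfl this, Finset.sum_const, smul_eq_mul]
  have hd2 : l * (2 * (k + 1) + (l - 1) * (k + 2)) ≤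
      2 * ∑ i : ι, (A.filter (fun x => i ∈ N x)).card ^ 2 := by
    rw [sum_deg_sq, Finset.mul_sum]
    rw [show l * (2 * (k + 1) + (l - 1) * (k + 2)) =
      ∑ x ∈ A, (2 * (k + 1) + (l - 1) * (k + 2)) by rw [Finset.sum_const, smul_eq_mul]]
    refine Finset.sum_le_sum ?_
    intro x hx
    rw [← Finset.add_sum_erase A _ hx, mul_add 2 ((N x ∩ N x).card), Finset.mul_sum]
    have hxc := (Finset.mem_filter.mp hx).2
    rw [Finset.inter_self, hxc]
    refine Nat.add_le_add_left ?_ _
    rw [← Finset.card_erase_of_mem hx, ← smul_eq_mul, ← Finset.sum_const]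
    refine Finset.sum_le_sum ?_
    intro y hy
    rw [Finset.mem_erase] at hy
    exact h3 x (hAS hx) y (hAS hy.2) (Ne.symm hy.1) hxc (Finset.mem_filter.mp hy.2).2
  have hd3 : ∑ i : ι, (A.filter (fun x => i ∈ N x)).card ^ 2 ≤
      k * (l * (k + 1)) + l * ∑ i, e i := by
    have : ∀ i : ι, (A.filter (fun x => i ∈ N x)).card ^ 2 ≤
        k * (A.filter (fun x => i ∈ N x)).card + l * e i := by
      intro i
      have ha : (A.filter (fun x => i ∈ N x)).card ≤ k + e i := by
        rw [← he i]
        exact Finset.card_le_card (Finset.filter_subset_filter _ hAS)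
      have hb : (A.filter (fun x => i ∈ N x)).card ≤ l :=
        Finset.card_le_card (Finset.filter_subset _ _)
      nlinarith [Nat.mul_le_mul_right (e i) hb,
        Nat.mul_le_mul_left (A.filter (fun x => i ∈ N x)).card ha]
    refine (Finset.sum_le_sum fun i _ => this i).trans ?_
    rw [Finset.sum_add_distrib, ← Finset.mul_sum, ← Finset.mul_sum, hd1]
  have hl0 : 0 < l := by omega
  have hfin : l * (2 * (k + 1) + (l - 1) * (k + 2)) ≤ l * (2 * (k * (k + 1)) + 2 * ∑ i, e i) := by
    calc l * (2 * (k + 1) + (l - 1) * (k + 2)) ≤ 2 * (k * (l * (k + 1)) + l * ∑ i, e i) :=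
          hd2.trans (Nat.mul_le_mul_left 2 hd3)
      _ = l * (2 * (k * (k + 1)) + 2 * ∑ i, e i) := by ring
  have hfin2 := Nat.le_of_mul_le_mul_left hfin hl0
  obtain ⟨l', hl'⟩ : ∃ l', l = l' + 1 := ⟨l - 1, by omega⟩
  rw [hl'] at hfin2 hE
  rw [Nat.add_sub_cancel] at hfin2
  have h5 : 2 * k ≤ l' + 1 := by omega
  nlinarith

end Pool.Agent.H37TR
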