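import Mathlib

/-!
# Largest induced tree and vertex connectivity of a finite graph
-/

namespace Pool.Agent.H37TR

open SimpleGraph

/-- The finite vertex set T spans an induced tree of G. -/
def IsInducedTree {V : Type*} (G : SimpleGraph V) (T : Finset V) : Prop :=
  (G.induce (T : Set V)).IsTree

/-- tree(G): the largest number of vertices of an induced tree of G. -/
noncomputable def treeNumber {V : Type*} (G : SimpleGraph V) : ℕ :=
  sSup {m : ℕ | ∃ T : Finset V, IsInducedTree G T ∧ T.card = m}

/-- κ(G): the smallest size of a vertex set X such that G - X is disconnected or has exactly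
one vertex. -/
noncomputable def vertexConnectivity {V : Type*} (G : SimpleGraph V) : ℕ :=
  sInf {m : ℕ | ∃ X : Finset V, X.card = m ∧
    (¬ (G.induce ((X : Set V)ᶜ)).Preconnected ∨ ((X : Set V)ᶜ).ncard = 1)}

end Pool.Agent.H37TR
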