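import Mathlib
import Pool.Agent.H37TR.Defs

/-!
# Induced trees: adding leaves and paths

General lemmas on vertex sets spanning induced trees.
-/

namespace Pool.Agent.H37TR

open SimpleGraph

variable {V : Type*} [DecidableEq V]

/-- The graph on the whole vertex set whose edges are the edges of G inside T. -/
def inside (G : SimpleGraph V) (T : Finset V) : SimpleGraph V where
  Adj a b := a ∈ T ∧ b ∈ T ∧ G.Adj a b
  symm := ⟨fun a b h => ⟨h.2.1, h.1, h.2.2.symm⟩⟩
  loopless := ⟨fun a h => G.loopless.irrefl a h.2.2⟩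

/-- Working form: connected and with acyclic spanning version. -/
def IT (G : SimpleGraph V) (T : Finset V) : Prop :=
  (G.induce (T : Set V)).Connected ∧ (inside G T).IsAcyclic

lemma IT.isInducedTree {G : SimpleGraph V} {T : Finset V} (h : IT G T) : IsInducedTree G T := by
  refine ⟨h.1, ?_⟩
  let f : G.induce (T : Set V) →g inside G T :=
    { toFun := fun v => v.1
      map_rel' := fun {a b} hab => ⟨a.2, b.2, hab⟩ }
  exact h.2.comap f Subtype.val_injective

lemma it_singleton (G : SimpleGraph V) (v : V) : IT G {v} := by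
  constructor
  · have : Nonempty ((({v} : Finset V) : Set V)) := ⟨⟨v, by simp⟩⟩
    have : Subsingleton ((({v} : Finset V) : Set V)) := by
      constructor
      rintro ⟨a, ha⟩ ⟨b, hb⟩
      simp at ha hb
      subst ha; subst hb; rfl
    exact (IsTree.of_subsingleton (G := G.induce ((({v} : Finset V) : Set V)))).1
  · have : inside G {v} = ⊥ := by
      ext a b
      simp only [inside, Finset.mem_singleton, bot_adj, iff_false]
      rintro ⟨rfl, rfl, h⟩
      exact G.loopless.irrefl _ h
    rw [this]
    exact isAcyclic_bot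

lemma IT.nonempty {G : SimpleGraph V} {T : Finset V} (h : IT G T) : T.Nonempty := by
  obtain ⟨⟨v, hv⟩⟩ := h.1.nonempty
  exact ⟨v, hv⟩

/-- Adding a vertex with exactly one neighbour in an induced tree gives an induced tree. -/
lemma IT.leaf {G : SimpleGraph V} {T : Finset V} (h : IT G T) {u v : V} (hv : v ∉ T)
    (hu : u ∈ T) (huv : G.Adj u v) (huniq : ∀ w ∈ T, G.Adj w v → w = u) :
    IT G (insert v T) := by
  constructor
  · have h1 : (G.induce ((T : Set V) ∪ {u, v})).Connected := by
      refine induce_union_connected h.1.preconnected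
        (induce_pair_connected_of_adj huv).preconnected ?_
      exact ⟨u, hu, by simp⟩
    have h2 : ((insert v T : Finset V) : Set V) = (T : Set V) ∪ {u, v} := by
      ext w
      simp only [Finset.coe_insert, Set.mem_insert_iff, Finset.mem_coe, Set.mem_union,
        Set.mem_singleton_iff]
      constructor
      · rintro (h | h)
        · exact Or.inr (Or.inr h)
        · exact Or.inl h
      · rintro (h | h | h)
        · exact Or.inr h
        · exact Or.inr (h ▸ hu)
        · exact Or.inl h
    rw [h2]
    exact h1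
  · have hne : u ≠ v := fun e => hv (e ▸ hu)
    have hno : ¬ (inside G T).Reachable u v := by
      intro hr
      obtain ⟨p⟩ := hr.symm
      cases p with
      | nil => exact hv hu
      | cons hadj _ => exact hv hadj.1
    have := h.2.sup_edge_of_not_reachable hno
    refine this.anti ?_
    intro a b hab
    simp only [sup_adj, edge_adj]
    rcases hab with ⟨ha, hb, hab⟩
    rw [Finset.mem_insert] at ha hb
    rcases ha with rfl | ha
    · rcases hb with rfl | hb
      · exact absurd hab (G.loopless.irrefl _)
      · have := huniq b hb hab.symm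
        subst this
        exact Or.inr ⟨Or.inr ⟨rfl, rfl⟩, hne.symm⟩
    · rcases hb with rfl | hb
      · have := huniq a ha hab
        subst this
        exact Or.inr ⟨Or.inl ⟨rfl, rfl⟩, hne⟩
      · exact Or.inl ⟨ha, hb, hab⟩

/-- A vertex which is reachable from a different vertex has a neighbour one step closer. -/
lemma exists_closer {W : Type*} (K : SimpleGraph W) {v x : W} (hr : K.Reachable v x) (hne : v ≠ x) :
    ∃ w, K.Adj v w ∧ K.Reachable w x ∧ K.dist w x + 1 = K.dist v x := by
  obtain ⟨p, hp⟩ := hr.exists_walk_length_eq_dist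
  cases p with
  | nil => exact absurd rfl hne
  | cons hadj q =>
    refine ⟨_, hadj, ⟨q⟩, ?_⟩
    rw [Walk.length_cons] at hp
    have h1 := dist_le q
    obtain ⟨q', hq'⟩ := (show K.Reachable _ x from ⟨q⟩).exists_walk_length_eq_dist
    have h2 := dist_le (Walk.cons hadj q')
    rw [Walk.length_cons] at h2
    omega

lemma dist_le_of_adj {W : Type*} (K : SimpleGraph W) {v w x : W} (hadj : K.Adj v w)
    (hr : K.Reachable w x) : K.dist v x ≤ K.dist w x + 1 := by
  obtain ⟨q', hq'⟩ := hr.exists_walk_length_eq_dist
  have h2 := dist_le (Walk.cons hadj q')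
  rw [Walk.length_cons] at h2
  omega

/-- Prolonging an induced tree along a shortest path inside the graph induced on C and x. -/
lemma path_aux {G : SimpleGraph V} (C : Set V) (x : V) (hxC : x ∈ C)
    (hC : (G.induce C).Connected) :
    ∀ (n : ℕ) (T : Finset V) (v u : V) (hv : v ∈ C), IT G T →
      (G.induce C).dist ⟨v, hv⟩ ⟨x, hxC⟩ = n → v ∉ T → u ∈ T → G.Adj u v →
      (∀ w ∈ T, G.Adj w v → w = u) →
      (∀ (w : V) (hw : w ∈ C), (G.induce C).dist ⟨w, hw⟩ ⟨x, hxC⟩ < n →
        w ∉ T ∧ ∀ t ∈ T, ¬ G.Adj t w) →
      ∃ T' : Finset V, IT G T' ∧ T ⊆ T' ∧ x ∈ T' ∧ (∀ w ∈ T', w ∈ T ∨ w ∈ C) := by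
  intro n
  induction n with
  | zero =>
    intro T v u hv hT hd hvT hu huv huniq _
    have : (⟨v, hv⟩ : C) = ⟨x, hxC⟩ := by
      rw [hC.dist_eq_zero_iff] at hd
      exact hd
    have hvx : v = x := congrArg Subtype.val this
    subst hvx
    refine ⟨insert v T, hT.leaf hvT hu huv huniq, Finset.subset_insert _ _,
      Finset.mem_insert_self _ _, ?_⟩
    intro w hw
    rw [Finset.mem_insert] at hw
    rcases hw with rfl | hw
    · exact Or.inr hv
    · exact Or.inl hw
  | succ n ih =>
    intro T v u hv hT hd hvT hu huv huniq hfar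
    have hne : (⟨v, hv⟩ : C) ≠ ⟨x, hxC⟩ := by
      intro e
      rw [e, dist_self] at hd
      omega
    obtain ⟨⟨w, hw⟩, hadj, hr, hdw⟩ := exists_closer (G.induce C) (hC.preconnected _ _) hne
    have hadj' : G.Adj v w := hadj
    have hdw' : (G.induce C).dist ⟨w, hw⟩ ⟨x, hxC⟩ = n := by omega
    have hwT := hfar w hw (by omega)
    obtain ⟨T', h1, h2, h3, h4⟩ := ih (insert v T) w v hw (hT.leaf hvT hu huv huniq) hdw'
      (by
        rw [Finset.mem_insert]
        rintro (e | e)
        · exact G.ne_of_adj hadj' e.symm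
        · exact hwT.1 e)
      (Finset.mem_insert_self _ _) hadj'
      (by
        intro t ht hadjt
        rw [Finset.mem_insert] at ht
        rcases ht with rfl | ht
        · rfl
        · exact absurd hadjt (hwT.2 t ht))
      (by
        intro y hy hdy
        have hyT := hfar y hy (by omega)
        constructor
        · rw [Finset.mem_insert]
          rintro (e | e)
          · subst e
            omega
          · exact hyT.1 e
        · intro t ht
          rw [Finset.mem_insert] at ht
          rcases ht with rfl | ht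
          · intro hty
            have hle : (G.induce C).dist ⟨t, hv⟩ ⟨x, hxC⟩ ≤
                (G.induce C).dist ⟨y, hy⟩ ⟨x, hxC⟩ + 1 :=
              dist_le_of_adj (G.induce C) (by exact hty) (hC.preconnected _ _)
            omega
          · exact hyT.2 t ht)
    refine ⟨T', h1, (Finset.subset_insert _ _).trans h2, h3, ?_⟩
    intro y hy
    rcases h4 y hy with h | h
    · rw [Finset.mem_insert] at h
      rcases h with rfl | h
      · exact Or.inr hv
      · exact Or.inl h
    · exact Or.inr h

/-- Path lemma.  C is connected (as a set in G), disjoint from the induced tree T, the only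
vertex of T with a neighbour in C is z, the vertex x outside T has a neighbour in C but none in
T.  Then T can be prolonged through C to contain x. -/
lemma path_lemma {G : SimpleGraph V} {T : Finset V} (hT : IT G T) (C : Set V) {x z : V}
    (hC : (G.induce C).Connected) (hdisj : ∀ c ∈ C, c ∉ T) (hxT : x ∉ T) (hxC : x ∉ C)
    (hxno : ∀ t ∈ T, ¬ G.Adj t x) (hxc : ∃ c ∈ C, G.Adj c x) (hzT : z ∈ T)
    (hzc : ∃ c ∈ C, G.Adj z c) (hzonly : ∀ t ∈ T, ∀ c ∈ C, G.Adj t c → t = z) :
    ∃ T' : Finset V, IT G T' ∧ T ⊆ T' ∧ x ∈ T' ∧ (∀ w ∈ T', w ∈ T ∨ w ∈ C ∨ w = x) := by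
  classical
  obtain ⟨c, hcC, hcx⟩ := hxc
  have hD : (G.induce (C ∪ {c, x})).Connected :=
    induce_union_connected hC.preconnected (induce_pair_connected_of_adj hcx).preconnected
      ⟨c, hcC, by simp⟩
  have hDset : C ∪ {c, x} = insert x C := by
    ext w
    simp only [Set.mem_union, Set.mem_insert_iff, Set.mem_singleton_iff]
    constructor
    · rintro (h | h | h)
      · exact Or.inr h
      · exact Or.inr (h ▸ hcC)
      · exact Or.inl h
    · rintro (h | h)
      · exact Or.inr (Or.inr h)
      · exact Or.inl h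
  rw [hDset] at hD
  have hxD : x ∈ insert x C := Set.mem_insert _ _
  -- choose the neighbour of z in C closest to x
  obtain ⟨b0, hb0C, hzb0⟩ := hzc
  let P : ℕ → Prop := fun n => ∃ (b : V) (hb : b ∈ C), G.Adj z b ∧
    (G.induce (insert x C)).dist ⟨b, Set.mem_insert_of_mem _ hb⟩ ⟨x, hxD⟩ = n
  have hP : ∃ n, P n := ⟨_, b0, hb0C, hzb0, rfl⟩
  obtain ⟨b, hbC, hzb, hbd⟩ := Nat.find_spec hP
  obtain ⟨T', h1, h2, h3, h4⟩ := path_aux (G := G) (insert x C) x hxD hD (Nat.find hP) T b z
    (Set.mem_insert_of_mem _ hbC) hT hbd (hdisj b hbC) hzT hzb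
    (fun w hw hadj => hzonly w hw b hbC hadj)
    (by
      intro w hw hlt
      rcases hw with rfl | hwC
      · exact ⟨hxT, hxno⟩
      · refine ⟨hdisj w hwC, ?_⟩
        intro t ht hadj
        have := hzonly t ht w hwC hadj
        subst this
        exact Nat.find_min hP hlt ⟨w, hwC, hadj, rfl⟩)
  refine ⟨T', h1, h2, h3, ?_⟩
  intro w hw
  rcases h4 w hw with h | h | h
  · exact Or.inl h
  · exact Or.inr (Or.inr h)
  · exact Or.inr (Or.inl h)

end Pool.Agent.H37TR
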