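import Mathlib
import Pool.Agent.H37TR.Tree

/-!
# Induced trees around a separating set
-/

namespace Pool.Agent.H37TR

open SimpleGraph

variable {V : Type*} [DecidableEq V] {ι : Type*} [Fintype ι] [DecidableEq ι]

/-- The sets C i are the connected components of G - S. -/
structure Sep (G : SimpleGraph V) (S : Finset V) (C : ι → Set V) : Prop where
  conn : ∀ i, (G.induce (C i)).Connected
  notS : ∀ i, ∀ v ∈ C i, v ∉ S
  cov : ∀ v, v ∉ S → ∃ i, v ∈ C i
  sep : ∀ i j, ∀ u ∈ C i, ∀ v ∈ C j, G.Adj u v → i = j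
  disj : ∀ i j v, v ∈ C i → v ∈ C j → i = j

/-- x has a neighbour in the component C i. -/
def Att (G : SimpleGraph V) (C : ι → Set V) (x : V) (i : ι) : Prop := ∃ c ∈ C i, G.Adj x c

/-- x and z are adjacent or attached to a common component. -/
def HAdj (G : SimpleGraph V) (C : ι → Set V) (x z : V) : Prop :=
  G.Adj x z ∨ ∃ i, Att G C x i ∧ Att G C z i

lemma HAdj.symm {G : SimpleGraph V} {C : ι → Set V} {x z : V} (h : HAdj G C x z) :
    HAdj G C z x := by
  rcases h with h | ⟨i, h1, h2⟩
  · exact Or.inl h.symm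
  · exact Or.inr ⟨i, h2, h1⟩

/-- T is an induced tree with T ∩ S = W which only enters components attached to two members
of W. -/
structure Good (G : SimpleGraph V) (S : Finset V) (C : ι → Set V) (W T : Finset V) : Prop where
  it : IT G T
  sub : W ⊆ T
  WS : W ⊆ S
  inter : ∀ t ∈ T, t ∈ S → t ∈ W
  touch : ∀ i, (∃ t ∈ T, t ∈ C i) → ∃ a ∈ W, ∃ b ∈ W, a ≠ b ∧ Att G C a i ∧ Att G C b i

open Classical in
/-- The components attached to exactly one member of W. -/
noncomputable def Ex (G : SimpleGraph V) (C : ι → Set V) (W : Finset V) : Finset ι :=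
  Finset.univ.filter (fun i => (W.filter (fun w => Att G C w i)).card = 1)

lemma mem_Ex {G : SimpleGraph V} {C : ι → Set V} {W : Finset V} {i : ι} :
    i ∈ Ex G C W ↔ ∃ a ∈ W, Att G C a i ∧ ∀ b ∈ W, Att G C b i → b = a := by
  classical
  unfold Ex
  rw [Finset.mem_filter]
  simp only [Finset.mem_univ, true_and]
  rw [Finset.card_eq_one]
  constructor
  · rintro ⟨a, ha⟩
    have h1 : a ∈ W.filter (fun w => Att G C w i) := by
      have : a ∈ ({a} : Finset V) := by simp
      rw [← ha] at this
      convert this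
    rw [Finset.mem_filter] at h1
    refine ⟨a, h1.1, h1.2, ?_⟩
    intro b hb hbi
    have h2 : b ∈ W.filter (fun w => Att G C w i) := Finset.mem_filter.mpr ⟨hb, hbi⟩
    have h3 : b ∈ ({a} : Finset V) := by
      rw [← ha]
      convert h2
    simpa using h3
  · rintro ⟨a, ha, hai, huniq⟩
    refine ⟨a, ?_⟩
    ext b
    simp only [Finset.mem_filter, Finset.mem_singleton]
    constructor
    · rintro ⟨hb, hbi⟩
      exact huniq b hb hbi
    · rintro rfl
      exact ⟨ha, hai⟩

/-- Adding one leaf in each component attached to exactly one member of W. -/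
lemma Good.leaves {G : SimpleGraph V} {S : Finset V} {C : ι → Set V} (hS : Sep G S C)
    {W T : Finset V} (hG : Good G S C W T) (J : Finset ι) (hJ : J ⊆ Ex G C W) :
    ∃ T' : Finset V, IT G T' ∧ T ⊆ T' ∧ T'.card = T.card + J.card ∧
      (∀ t ∈ T', t ∈ T ∨ ∃ i ∈ J, t ∈ C i) := by
  induction J using Finset.induction_on with
  | empty => exact ⟨T, hG.it, Finset.Subset.refl _, by simp, fun t ht => Or.inl ht⟩
  | insert i J hiJ ih =>
    obtain ⟨T', h1, h2, h3, h4⟩ := ih (fun j hj => hJ (Finset.mem_insert_of_mem hj))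
    have hiE := hJ (Finset.mem_insert_self i J)
    rw [mem_Ex] at hiE
    obtain ⟨a, haW, ⟨c, hcC, hac⟩, huniq⟩ := hiE
    have hnotouch : ∀ t ∈ T, t ∉ C i := by
      intro t ht htC
      obtain ⟨p, hp, q, hq, hne, hpi, hqi⟩ := hG.touch i ⟨t, ht, htC⟩
      exact hne ((huniq p hp hpi).trans (huniq q hq hqi).symm)
    have hcT' : c ∉ T' := by
      intro hc
      rcases h4 c hc with h | ⟨j, hj, hcj⟩
      · exact hnotouch c h hcC
      · exact hiJ (hS.disj i j c hcC hcj ▸ hj)
    refine ⟨insert c T', h1.leaf hcT' (h2 (hG.sub haW)) hac ?_,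
      h2.trans (Finset.subset_insert _ _), ?_, ?_⟩
    · intro w hw hadj
      rcases h4 w hw with h | ⟨j, hj, hwj⟩
      · by_cases hwS : w ∈ S
        · exact huniq w (hG.inter w h hwS) ⟨c, hcC, hadj⟩
        · obtain ⟨j, hj⟩ := hS.cov w hwS
          have := hS.sep j i w hj c hcC hadj
          subst this
          exact absurd hj (hnotouch w h)
      · have := hS.sep j i w hwj c hcC hadj
        subst this
        exact absurd hj hiJ
    · rw [Finset.card_insert_of_notMem hcT', h3, Finset.card_insert_of_notMem hiJ]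
      omega
    · intro t ht
      rw [Finset.mem_insert] at ht
      rcases ht with rfl | ht
      · exact Or.inr ⟨i, Finset.mem_insert_self _ _, hcC⟩
      · rcases h4 t ht with h | ⟨j, hj, htj⟩
        · exact Or.inl h
        · exact Or.inr ⟨j, Finset.mem_insert_of_mem hj, htj⟩

lemma Good.bound {G : SimpleGraph V} {S : Finset V} {C : ι → Set V} (hS : Sep G S C) {k : ℕ}
    (hk : ∀ T : Finset V, IT G T → T.card ≤ k + 2)
    {W T : Finset V} (hG : Good G S C W T) : W.card + (Ex G C W).card ≤ k + 2 := by
  obtain ⟨T', h1, h2, h3, -⟩ := hG.leaves hS (Ex G C W) (Finset.Subset.refl _)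
  have := hk T' h1
  have h5 := Finset.card_le_card hG.sub
  omega

lemma good_singleton {G : SimpleGraph V} {S : Finset V} {C : ι → Set V} (hS : Sep G S C) {x : V}
    (hx : x ∈ S) : Good G S C {x} {x} where
  it := it_singleton G x
  sub := Finset.Subset.refl _
  WS := by simpa using hx
  inter := fun t ht _ => ht
  touch := by
    rintro i ⟨t, ht, hti⟩
    rw [Finset.mem_singleton] at ht
    subst ht
    exact absurd hx (hS.notS i t hti)

/-- Adding to W a further vertex x of S which is H-adjacent to exactly one member of W. -/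
lemma Good.ext {G : SimpleGraph V} {S : Finset V} {C : ι → Set V} (hS : Sep G S C)
    {W T : Finset V} (hG : Good G S C W T) {x z : V} (hx : x ∈ S) (hxW : x ∉ W) (hz : z ∈ W)
    (hxz : HAdj G C x z) (honly : ∀ w ∈ W, HAdj G C x w → w = z) :
    ∃ T' : Finset V, Good G S C (insert x W) T' := by
  have hxT : x ∉ T := fun h => hxW (hG.inter x h hx)
  -- a component entered by T is not attached to x
  have hcomp : ∀ i, (∃ t ∈ T, t ∈ C i) → ¬ Att G C x i := by
    intro i hi hxi
    obtain ⟨a, ha, b, hb, hne, hai, hbi⟩ := hG.touch i hi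
    exact hne ((honly a ha (Or.inr ⟨i, hxi, hai⟩)).trans
      (honly b hb (Or.inr ⟨i, hxi, hbi⟩)).symm)
  have hnbr : ∀ t ∈ T, G.Adj t x → t = z := by
    intro t ht hadj
    by_cases htS : t ∈ S
    · exact honly t (hG.inter t ht htS) (Or.inl hadj.symm)
    · obtain ⟨i, hi⟩ := hS.cov t htS
      exact absurd ⟨t, hi, hadj.symm⟩ (hcomp i ⟨t, ht, hi⟩)
  have hWS : insert x W ⊆ S := Finset.insert_subset hx hG.WS
  by_cases hadj : G.Adj x z
  · refine ⟨insert x T, hG.it.leaf hxT (hG.sub hz) hadj.symm hnbr,
      Finset.insert_subset_insert _ hG.sub, hWS, ?_, ?_⟩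
    · intro t ht htS
      rw [Finset.mem_insert] at ht
      rcases ht with rfl | ht
      · exact Finset.mem_insert_self _ _
      · exact Finset.mem_insert_of_mem (hG.inter t ht htS)
    · rintro i ⟨t, ht, hti⟩
      rw [Finset.mem_insert] at ht
      rcases ht with rfl | ht
      · exact absurd hx (hS.notS i t hti)
      · obtain ⟨a, ha, b, hb, h⟩ := hG.touch i ⟨t, ht, hti⟩
        exact ⟨a, Finset.mem_insert_of_mem ha, b, Finset.mem_insert_of_mem hb, h⟩
  · rcases hxz with h | ⟨i, hxi, hzi⟩
    · exact absurd h hadj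
    · have hTi : ∀ c ∈ C i, c ∉ T := fun c hc hcT => hcomp i ⟨c, hcT, hc⟩ hxi
      have hxno : ∀ t ∈ T, ¬ G.Adj t x := by
        intro t ht h
        have := hnbr t ht h
        subst this
        exact hadj h.symm
      obtain ⟨T', h1, h2, h3, h4⟩ := path_lemma (x := x) (z := z) hG.it (C i) (hS.conn i) hTi hxT
        (fun h => hS.notS i x h hx) hxno
        (by
          obtain ⟨c, hc, hcx⟩ := hxi
          exact ⟨c, hc, hcx.symm⟩) (hG.sub hz) hzi
        (by
          intro t ht c hc htc
          by_cases htS : t ∈ S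
          · exact honly t (hG.inter t ht htS) (Or.inr ⟨i, hxi, ⟨c, hc, htc⟩⟩)
          · obtain ⟨j, hj⟩ := hS.cov t htS
            have := hS.sep j i t hj c hc htc
            subst this
            exact absurd hj (fun h => hTi t h ht))
      refine ⟨T', h1, ?_, hWS, ?_, ?_⟩
      · exact Finset.insert_subset h3 (hG.sub.trans h2)
      · intro t ht htS
        rcases h4 t ht with h | h | h
        · exact Finset.mem_insert_of_mem (hG.inter t h htS)
        · exact absurd htS (hS.notS i t h)
        · exact h ▸ Finset.mem_insert_self _ _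
      · rintro j ⟨t, ht, htj⟩
        rcases h4 t ht with h | h | h
        · obtain ⟨a, ha, b, hb, h'⟩ := hG.touch j ⟨t, h, htj⟩
          exact ⟨a, Finset.mem_insert_of_mem ha, b, Finset.mem_insert_of_mem hb, h'⟩
        · have := hS.disj i j t h htj
          subst this
          refine ⟨x, Finset.mem_insert_self _ _, z, Finset.mem_insert_of_mem hz, ?_, hxi, hzi⟩
          rintro rfl
          exact hxW hz
        · subst h
          exact absurd hx (hS.notS j t htj)

end Pool.Agent.H37TR
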