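import Mathlib
import Pool.Agent.H37TR.Sep

/-!
# Two large members of S are H-adjacent
-/

namespace Pool.Agent.H37TR

open SimpleGraph

variable {V : Type*} [DecidableEq V] {ι : Type*} [Fintype ι] [DecidableEq ι]

/-- The auxiliary graph on S. -/
def HG (G : SimpleGraph V) (S : Finset V) (C : ι → Set V) : SimpleGraph V where
  Adj x z := x ≠ z ∧ x ∈ S ∧ z ∈ S ∧ HAdj G C x z
  symm := ⟨fun _ _ h => ⟨h.1.symm, h.2.2.1, h.2.1, h.2.2.2.symm⟩⟩
  loopless := ⟨fun _ h => h.1 rfl⟩

/-- The components attached to x. -/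
noncomputable def NN (G : SimpleGraph V) (C : ι → Set V) (x : V) : Finset ι := Ex G C {x}

lemma mem_NN {G : SimpleGraph V} {C : ι → Set V} {x : V} {i : ι} :
    i ∈ NN G C x ↔ Att G C x i := by
  unfold NN
  rw [mem_Ex]
  constructor
  · rintro ⟨a, ha, hai, -⟩
    rw [Finset.mem_singleton] at ha
    exact ha ▸ hai
  · intro h
    exact ⟨x, by simp, h, fun b hb _ => by simpa using hb⟩

/-- The members of S seen from a vertex u. -/
def Near (S : Finset V) (G : SimpleGraph V) (C : ι → Set V) (u w : V) : Prop :=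
  w ∈ S ∧ (w = u ∨ ∃ i, u ∈ C i ∧ Att G C w i)

lemma hg_reachable {G : SimpleGraph V} {S : Finset V} {C : ι → Set V} (hS : Sep G S C)
    (hG : G.Connected) {x y : V} (hx : x ∈ S) (hy : y ∈ S) : (HG G S C).Reachable x y := by
  have key : ∀ {u v : V} (_ : G.Walk u v), (∀ w, Near S G C u w → (HG G S C).Reachable x w) →
      ∀ w, Near S G C v w → (HG G S C).Reachable x w := by
    intro u v p
    induction p with
    | nil => exact fun h => h
    | @cons u v v' hadj p ih =>
      intro h
      refine ih ?_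
      rintro w ⟨hwS, hw⟩
      rcases hw with rfl | ⟨i, hvi, hwi⟩
      · by_cases huS : u ∈ S
        · refine (h u ⟨huS, Or.inl rfl⟩).trans (Adj.reachable ?_)
          exact ⟨G.ne_of_adj hadj, huS, hwS, Or.inl hadj⟩
        · obtain ⟨i, hi⟩ := hS.cov u huS
          exact h w ⟨hwS, Or.inr ⟨i, hi, ⟨u, hi, hadj.symm⟩⟩⟩
      · by_cases huS : u ∈ S
        · by_cases huw : u = w
          · subst huw
            exact h u ⟨huS, Or.inl rfl⟩
          · refine (h u ⟨huS, Or.inl rfl⟩).trans (Adj.reachable ?_)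
            exact ⟨huw, huS, hwS, Or.inr ⟨i, ⟨v, hvi, hadj⟩, hwi⟩⟩
        · obtain ⟨j, hj⟩ := hS.cov u huS
          have := hS.sep j i u hj v hvi hadj
          subst this
          exact h w ⟨hwS, Or.inr ⟨j, hj, hwi⟩⟩
  obtain ⟨p⟩ := hG.preconnected x y
  refine key p ?_ y ⟨hy, Or.inl rfl⟩
  rintro w ⟨hwS, rfl | ⟨i, hi, -⟩⟩
  · exact Reachable.refl _
  · exact absurd hx (hS.notS i x hi)

/-- Induced trees along a shortest path of the auxiliary graph. -/
lemma chain {G : SimpleGraph V} {S : Finset V} {C : ι → Set V} (hS : Sep G S C) {y : V} :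
    ∀ (n : ℕ) (z : V), z ∈ S → (HG G S C).Reachable z y → (HG G S C).dist z y = n + 1 →
      ∃ W T : Finset V, Good G S C W T ∧ z ∈ W ∧ W.card = n + 1 ∧
        (∀ w ∈ W, (HG G S C).Reachable w y ∧ 1 ≤ (HG G S C).dist w y ∧
          (HG G S C).dist w y ≤ n + 1) ∧
        (∀ w ∈ W, ∀ w' ∈ W, (HG G S C).dist w y = (HG G S C).dist w' y → w = w') ∧
        (∃ u ∈ W, (HG G S C).dist u y = 1) := by
  intro n
  induction n with
  | zero =>
    intro z hz hr hd
    refine ⟨{z}, {z}, good_singleton hS hz, by simp, by simp, ?_, ?_, ⟨z, by simp, hd⟩⟩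
    · intro w hw
      rw [Finset.mem_singleton] at hw
      subst hw
      exact ⟨hr, by omega, by omega⟩
    · intro w hw w' hw' _
      rw [Finset.mem_singleton] at hw hw'
      rw [hw, hw']
  | succ n ih =>
    intro z hz hr hd
    have hne : z ≠ y := by
      rintro rfl
      rw [dist_self] at hd
      omega
    obtain ⟨z', hadj, hr', hd'⟩ := exists_closer (HG G S C) hr hne
    have hd'' : (HG G S C).dist z' y = n + 1 := by omega
    obtain ⟨W, T, hGood, hz'W, hcard, hW, hinj, u, huW, hu⟩ := ih z' hadj.2.2.1 hr' hd''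
    have hzW : z ∉ W := by
      intro h
      have := (hW z h).2.2
      omega
    have honly : ∀ w ∈ W, HAdj G C z w → w = z' := by
      intro w hw hzw
      have hA : (HG G S C).Adj z w :=
        ⟨fun e => hzW (e ▸ hw), hz, hGood.WS hw, hzw⟩
      have h1 := dist_le_of_adj (HG G S C) hA (hW w hw).1
      have h2 := (hW w hw).2.2
      exact hinj w hw z' hz'W (by omega)
    obtain ⟨T', hT'⟩ := hGood.ext hS hz hzW hz'W hadj.2.2.2 honly
    refine ⟨insert z W, T', hT', Finset.mem_insert_self _ _, ?_, ?_, ?_, ?_⟩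
    · rw [Finset.card_insert_of_notMem hzW, hcard]
    · intro w hw
      rw [Finset.mem_insert] at hw
      rcases hw with rfl | hw
      · exact ⟨hr, by omega, by omega⟩
      · have := hW w hw
        exact ⟨this.1, this.2.1, by omega⟩
    · intro w hw w' hw' he
      rw [Finset.mem_insert] at hw hw'
      rcases hw with rfl | hw
      · rcases hw' with rfl | hw'
        · rfl
        · have := (hW w' hw').2.2
          omega
      · rcases hw' with rfl | hw'
        · have := (hW w hw).2.2
          omega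
        · exact hinj w hw w' hw' he
    · exact ⟨u, Finset.mem_insert_of_mem huW, hu⟩

lemma adj_of_dist_one {W : Type*} {K : SimpleGraph W} {u y : W} (h : K.dist u y = 1) :
    K.Adj u y := dist_eq_one_iff_adj.mp h

/-- Two members of S attached to k+1 components each are H-adjacent. -/
lemma large_adj {G : SimpleGraph V} {S : Finset V} {C : ι → Set V} (hS : Sep G S C)
    (hG : G.Connected) {k : ℕ} (hk : ∀ T : Finset V, IT G T → T.card ≤ k + 2)
    {x y : V} (hx : x ∈ S) (hy : y ∈ S) (hxy : x ≠ y) (hxc : (NN G C x).card = k + 1)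
    (hyc : (NN G C y).card = k + 1) : HAdj G C x y := by
  by_contra hnot
  have hr := hg_reachable hS hG hx hy
  have hd0 : (HG G S C).dist x y ≠ 0 := by
    rw [Ne, dist_eq_zero_iff_eq_or_not_reachable]
    push Not
    exact ⟨hxy, hr⟩
  have hd1 : (HG G S C).dist x y ≠ 1 := by
    intro h
    exact hnot (adj_of_dist_one h).2.2.2
  obtain ⟨z, hadj, hr', hd'⟩ := exists_closer (HG G S C) hr hxy
  obtain ⟨n, hn⟩ : ∃ n, (HG G S C).dist z y = n + 1 := ⟨(HG G S C).dist z y - 1, by omega⟩
  obtain ⟨W, T, hGood, hzW, hcard, hW, hinj, u, huW, hu⟩ := chain hS n z hadj.2.2.1 hr' hn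
  have hxW : x ∉ W := by
    intro h
    have := (hW x h).2.2
    omega
  have hyW : y ∉ W := by
    intro h
    have := (hW y h).2.1
    rw [dist_self] at this
    omega
  have honlyx : ∀ w ∈ W, HAdj G C x w → w = z := by
    intro w hw hxw
    have hA : (HG G S C).Adj x w := ⟨fun e => hxW (e ▸ hw), hx, hGood.WS hw, hxw⟩
    have h1 := dist_le_of_adj (HG G S C) hA (hW w hw).1
    have h2 := (hW w hw).2.2
    exact hinj w hw z hzW (by omega)
  have honlyy : ∀ w ∈ W, HAdj G C y w → w = u := by
    intro w hw hyw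
    have hA : (HG G S C).Adj w y := ⟨fun e => hyW (e ▸ hw), hGood.WS hw, hy, hyw.symm⟩
    have h1 := dist_eq_one_iff_adj.mpr hA
    exact hinj w hw u huW (by omega)
  obtain ⟨T1, hT1⟩ := hGood.ext hS hx hxW hzW hadj.2.2.2 honlyx
  have hyW1 : y ∉ insert x W := by
    rw [Finset.mem_insert]
    rintro (h | h)
    · exact hxy h.symm
    · exact hyW h
  obtain ⟨T2, hT2⟩ := hT1.ext hS hy hyW1 (Finset.mem_insert_of_mem huW)
    ((adj_of_dist_one hu).2.2.2.symm)
    (by
      intro w hw hyw
      rw [Finset.mem_insert] at hw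
      rcases hw with rfl | hw
      · exact absurd hyw.symm hnot
      · exact honlyy w hw hyw)
  have hb1 := hGood.bound hS hk
  have hb2 := hT2.bound hS hk
  have hdisj : Disjoint (NN G C x) (NN G C y) := by
    rw [Finset.disjoint_left]
    intro i hi hj
    rw [mem_NN] at hi hj
    exact hnot (Or.inr ⟨i, hi, hj⟩)
  have hsub : (NN G C x ∪ NN G C y) \ Ex G C W ⊆ Ex G C (insert y (insert x W)) := by
    intro i hi
    rw [Finset.mem_sdiff, Finset.mem_union, mem_NN, mem_NN] at hi
    obtain ⟨hi1, hi2⟩ := hi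
    rw [mem_Ex] at hi2
    rw [mem_Ex]
    rcases hi1 with hi1 | hi1
    · refine ⟨x, by simp, hi1, ?_⟩
      intro b hb hbi
      rw [Finset.mem_insert, Finset.mem_insert] at hb
      rcases hb with rfl | rfl | hb
      · exact absurd (Or.inr ⟨i, hi1, hbi⟩) hnot
      · rfl
      · exfalso
        have hbz := honlyx b hb (Or.inr ⟨i, hi1, hbi⟩)
        subst hbz
        exact hi2 ⟨b, hb, hbi, fun c hc hci => honlyx c hc (Or.inr ⟨i, hi1, hci⟩)⟩
    · refine ⟨y, by simp, hi1, ?_⟩
      intro b hb hbi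
      rw [Finset.mem_insert, Finset.mem_insert] at hb
      rcases hb with rfl | rfl | hb
      · rfl
      · exact absurd (Or.inr ⟨i, hbi, hi1⟩) hnot
      · exfalso
        have hbz := honlyy b hb (Or.inr ⟨i, hi1, hbi⟩)
        subst hbz
        exact hi2 ⟨b, hb, hbi, fun c hc hci => honlyy c hc (Or.inr ⟨i, hi1, hci⟩)⟩
  have hc1 := Finset.card_le_card hsub
  have hc2 := Finset.le_card_sdiff (Ex G C W) (NN G C x ∪ NN G C y)
  rw [Finset.card_union_of_disjoint hdisj, hxc, hyc] at hc2
  rw [Finset.card_insert_of_notMem hyW1, Finset.card_insert_of_notMem hxW, hcard] at hb2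
  rw [hcard] at hb1
  omega

/-- Two members of S attached to k+1 components each share at least (k+2)/2 of them. -/
lemma large_inter {G : SimpleGraph V} {S : Finset V} {C : ι → Set V} (hS : Sep G S C)
    (hG : G.Connected) {k : ℕ} (hk : ∀ T : Finset V, IT G T → T.card ≤ k + 2)
    {x y : V} (hx : x ∈ S) (hy : y ∈ S) (hxy : x ≠ y) (hxc : (NN G C x).card = k + 1)
    (hyc : (NN G C y).card = k + 1) : k + 2 ≤ 2 * (NN G C x ∩ NN G C y).card := by
  have hadj := large_adj hS hG hk hx hy hxy hxc hyc
  have hyW : y ∉ ({x} : Finset V) := by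
    rw [Finset.mem_singleton]
    exact hxy.symm
  obtain ⟨T, hT⟩ := (good_singleton hS hx).ext hS hy hyW (Finset.mem_singleton_self x) hadj.symm
    (fun w hw _ => by simpa using hw)
  have hb := hT.bound hS hk
  have hsub : (NN G C x \ NN G C y) ∪ (NN G C y \ NN G C x) ⊆ Ex G C (insert y {x}) := by
    intro i hi
    rw [Finset.mem_union, Finset.mem_sdiff, Finset.mem_sdiff, mem_NN, mem_NN] at hi
    rw [mem_Ex]
    rcases hi with ⟨h1, h2⟩ | ⟨h1, h2⟩
    · refine ⟨x, by simp, h1, ?_⟩
      intro b hb hbi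
      rw [Finset.mem_insert, Finset.mem_singleton] at hb
      rcases hb with rfl | rfl
      · exact absurd hbi h2
      · rfl
    · refine ⟨y, by simp, h1, ?_⟩
      intro b hb hbi
      rw [Finset.mem_insert, Finset.mem_singleton] at hb
      rcases hb with rfl | rfl
      · rfl
      · exact absurd hbi h2
  have hc := Finset.card_le_card hsub
  rw [Finset.card_union_of_disjoint (by
    rw [Finset.disjoint_left]
    intro i hi hj
    rw [Finset.mem_sdiff] at hi hj
    exact hi.2 hj.1)] at hc
  have e1 := Finset.card_sdiff_add_card_inter (NN G C x) (NN G C y)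
  have e2 := Finset.card_sdiff_add_card_inter (NN G C y) (NN G C x)
  rw [Finset.inter_comm] at e2
  rw [Finset.card_insert_of_notMem hyW, Finset.card_singleton] at hb
  omega

/-- A member of S is attached to at most k+1 components. -/
lemma nn_card_le {G : SimpleGraph V} {S : Finset V} {C : ι → Set V} (hS : Sep G S C)
    {k : ℕ} (hk : ∀ T : Finset V, IT G T → T.card ≤ k + 2) {x : V} (hx : x ∈ S) :
    (NN G C x).card ≤ k + 1 := by
  have := (good_singleton hS hx).bound hS hk
  rw [Finset.card_singleton] at this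
  unfold NN
  omega

end Pool.Agent.H37TR
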