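import Mathlib
import Pool.Agent.H37TR.Count
import Pool.Agent.H37TR.Dist

/-!
# Components after deleting a set: the main bound
-/

namespace Pool.Agent.H37TR

open SimpleGraph

variable {V : Type*} [Fintype V] [DecidableEq V]

lemma card_le_treeNumber (G : SimpleGraph V) {T : Finset V} (hT : IT G T) :
    T.card ≤ treeNumber G := by
  unfold treeNumber
  refine le_csSup ⟨Fintype.card V, ?_⟩ ⟨T, hT.isInducedTree, rfl⟩
  rintro m ⟨T', -, rfl⟩
  exact Finset.card_le_univ T'

omit [Fintype V] in
lemma preconnected_of_lt (G : SimpleGraph V) {X : Finset V}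
    (hX : X.card < vertexConnectivity G) : (G.induce ((X : Set V)ᶜ)).Preconnected := by
  by_contra h
  exact Nat.notMem_of_lt_sInf hX ⟨X, rfl, Or.inl h⟩

lemma one_le_vertexConnectivity (G : SimpleGraph V) (hG : G.Connected)
    (hn : 1 < Fintype.card V) : 1 ≤ vertexConnectivity G := by
  by_contra hcon
  have h0 : vertexConnectivity G = 0 := by omega
  unfold vertexConnectivity at h0
  rw [Nat.sInf_eq_zero] at h0
  rcases h0 with ⟨X, hX, h⟩ | h
  · rw [Finset.card_eq_zero] at hX
    subst hX
    rcases h with h | h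
    · apply h
      have e : ((∅ : Finset V) : Set V)ᶜ = Set.univ := by simp
      rw [e]
      intro a b
      have := hG.preconnected a.1 b.1
      let f : G →g G.induce (Set.univ : Set V) :=
        { toFun := fun v => ⟨v, trivial⟩
          map_rel' := fun {a b} hab => hab }
      exact this.map f
    · have e : ((∅ : Finset V) : Set V)ᶜ = Set.univ := by simp
      rw [e, Set.ncard_univ, Nat.card_eq_fintype_card] at h
      omega
  · obtain ⟨v⟩ := hG.nonempty
    have : (Finset.univ.erase v).card ∈ {m : ℕ | ∃ X : Finset V, X.card = m ∧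
        (¬ (G.induce ((X : Set V)ᶜ)).Preconnected ∨ ((X : Set V)ᶜ).ncard = 1)} := by
      refine ⟨Finset.univ.erase v, rfl, Or.inr ?_⟩
      have e : ((Finset.univ.erase v : Finset V) : Set V)ᶜ = {v} := by
        ext w
        simp
      rw [e, Set.ncard_singleton]
    rw [h] at this
    exact this

/-- The vertex set of a component of G - S. -/
def compSet (G : SimpleGraph V) (S : Finset V)
    (c : (G.induce ((S : Set V)ᶜ)).ConnectedComponent) : Set V :=
  {v | ∃ h : v ∈ ((S : Set V)ᶜ), (G.induce ((S : Set V)ᶜ)).connectedComponentMk ⟨v, h⟩ = c}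

omit [Fintype V] in
lemma sep_compSet (G : SimpleGraph V) (S : Finset V) : Sep G S (compSet G S) where
  conn := by
    intro c
    have h := c.connected_toSimpleGraph
    let f : c.toSimpleGraph →g G.induce (compSet G S c) :=
      { toFun := fun v => ⟨v.1.1, v.1.2, v.2⟩
        map_rel' := fun {a b} hab => hab }
    refine h.map f ?_
    rintro ⟨v, hv, hvc⟩
    exact ⟨⟨⟨v, hv⟩, hvc⟩, rfl⟩
  notS := by
    rintro c v ⟨h, -⟩ hS
    exact h hS
  cov := fun v hv => ⟨_, hv, rfl⟩
  sep := by
    rintro c c' u ⟨hu, rfl⟩ v ⟨hv, rfl⟩ hadj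
    rw [ConnectedComponent.eq]
    exact Adj.reachable (G := G.induce ((S : Set V)ᶜ)) hadj
  disj := by
    rintro c c' v ⟨h, rfl⟩ ⟨h', rfl⟩
    rfl

omit [Fintype V] in
lemma attached_card (G : SimpleGraph V) (S : Finset V) {ι : Type*} [Fintype ι] [DecidableEq ι]
    {C : ι → Set V} (hS : Sep G S C) {i j : ι} (hij : i ≠ j) :
    vertexConnectivity G ≤ (S.filter (fun x => i ∈ NN G C x)).card := by
  by_contra hlt
  push Not at hlt
  set X := S.filter (fun x => i ∈ NN G C x) with hX
  have hpre := preconnected_of_lt G hlt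
  obtain ⟨⟨u, hu⟩⟩ := (hS.conn i).nonempty
  obtain ⟨⟨v, hv⟩⟩ := (hS.conn j).nonempty
  have hnX : ∀ {w : V}, w ∉ S → w ∈ ((X : Set V)ᶜ) := by
    intro w hw h
    exact hw (Finset.mem_filter.mp h).1
  have hclosed : ∀ {a b : ((X : Set V)ᶜ : Set V)} (_ : (G.induce ((X : Set V)ᶜ)).Walk a b),
      a.1 ∈ C i → b.1 ∈ C i := by
    intro a b p
    induction p with
    | nil => exact fun h => h
    | @cons a b c hadj p ih =>
      intro ha
      apply ih
      have hadj' : G.Adj a.1 b.1 := hadj
      by_cases hbS : b.1 ∈ S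
      · exfalso
        apply b.2
        show b.1 ∈ (X : Set V)
        exact Finset.mem_filter.mpr ⟨hbS, mem_NN.mpr ⟨a.1, ha, hadj'.symm⟩⟩
      · obtain ⟨j', hj'⟩ := hS.cov b.1 hbS
        have := hS.sep i j' a.1 ha b.1 hj' hadj'
        exact this ▸ hj'
  obtain ⟨p⟩ := hpre ⟨u, hnX (hS.notS i u hu)⟩ ⟨v, hnX (hS.notS j v hv)⟩
  exact hij (hS.disj i j v (hclosed p hu) hv)

/-- The main bound. -/
theorem components_le (G : SimpleGraph V) (hG : G.Connected) (hn : 1 < Fintype.card V)
    (h : treeNumber G ≤ vertexConnectivity G + 2) (S : Finset V) :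
    Nat.card (G.induce ((S : Set V)ᶜ)).ConnectedComponent ≤ S.card + 1 := by
  classical
  haveI : Finite (G.induce ((S : Set V)ᶜ)).ConnectedComponent := by
    unfold ConnectedComponent
    infer_instance
  haveI : Fintype (G.induce ((S : Set V)ᶜ)).ConnectedComponent := Fintype.ofFinite _
  rw [Nat.card_eq_fintype_card]
  by_cases h1 : Fintype.card (G.induce ((S : Set V)ᶜ)).ConnectedComponent ≤ 1
  · omega
  push Not at h1
  have hS := sep_compSet G S
  have hk : ∀ T : Finset V, IT G T → T.card ≤ vertexConnectivity G + 2 :=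
    fun T hT => (card_le_treeNumber G hT).trans h
  refine count_bound S (NN G (compSet G S)) (vertexConnectivity G)
    (one_le_vertexConnectivity G hG hn) ?_ ?_ ?_
  · intro i
    obtain ⟨j, hj⟩ := Fintype.exists_ne_of_one_lt_card h1 i
    exact attached_card G S hS hj.symm
  · intro x hx
    exact nn_card_le hS hk hx
  · intro x hx y hy hxy hxc hyc
    exact large_inter hS hG hk hx hy hxy hxc hyc

end Pool.Agent.H37TR
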